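import Pool.Agent.H7.GX.Stmts
import Pool.Agent.H46.GU.BDAgen

/-!
Row BDAX of the board gx (MP_fd41b2_co).
-/

set_option autoImplicit false

open Finset

namespace Pool.GX7

open Pool.Agent.H23.KT Pool.Agent.H46.KW Pool.KQ Pool.GT7 Pool.GU7 Pool.GV7

namespace BDAXaux

/-- indicator of adjacency -/
noncomputable def ia {V : Type} (G : SimpleGraph V) (y x : V) : ℝ := by
  classical exact if G.Adj y x then 1 else 0

lemma ia_comm {V : Type} (G : SimpleGraph V) (y x : V) : ia G y x = ia G x y := by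
  unfold ia
  by_cases h : G.Adj y x
  · rw [if_pos h, if_pos h.symm]
  · rw [if_neg h, if_neg (fun h' => h h'.symm)]

lemma nbc {V : Type} (G : SimpleGraph V) (Z : Finset V) (y : V) :
    ((nb G Z y).card : ℝ) = ∑ x ∈ Z, ia G y x := by
  classical
  unfold nb ia
  rw [card_filter]
  push_cast
  refine sum_congr rfl fun x _ => ?_
  by_cases h : G.Adj y x
  · rw [if_pos h]
  · rw [if_neg h]

lemma swap {V : Type} (G : SimpleGraph V) (X Y : Finset V) :
    ∑ x ∈ X, ((nb G Y x).card : ℝ) = ∑ y ∈ Y, ((nb G X y).card : ℝ) := by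
  simp only [nbc]
  rw [sum_comm]
  exact sum_congr rfl fun y _ => sum_congr rfl fun x _ => ia_comm G x y

lemma kone {V : Type} [DecidableEq V] (G : SimpleGraph V) (Z : Finset V) :
    kc G Z 1 = Z.card := by
  have h := kc_sum G Z 0
  simp only [kc_zero, sum_const, smul_eq_mul, mul_one, zero_add, one_mul] at h
  exact h.symm

lemma ktwo {V : Type} [DecidableEq V] (G : SimpleGraph V) (Z : Finset V) :
    2 * (kc G Z 2 : ℝ) = ∑ y ∈ Z, ((nb G Z y).card : ℝ) := by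
  have h := kc_sum G Z 1
  simp only [kone] at h
  have h2 : (((∑ v ∈ Z, (nb G Z v).card : ℕ)) : ℝ) = (((1 + 1) * kc G Z (1 + 1) : ℕ) : ℝ) := by
    rw [h]
  push_cast at h2
  exact h2.symm

/-- the numerical core -/
lemma core (b D η ζ d m : ℝ) (hb : 3 ≤ b) (hη : 0 ≤ η) (hζ : 0 ≤ ζ)
    (hs : η + ζ ≤ D) (hd : 0 ≤ d) (hd2 : 3 * (b * d) ≤ 2 * ((b - 1) * D)) (hm : m ≤ d)
    (hm2 : m ≤ ζ) :
    b * (η * d) + b * (η * m) + (b - 1) * ζ ^ 2 ≤ (b - 1) * (D * (η + ζ)) := by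
  have h1 : (b - 1) * (ζ * η) ≤ (b - 1) * (ζ * (D - ζ)) :=
    mul_le_mul_of_nonneg_left (mul_le_mul_of_nonneg_left (by linarith) hζ) (by linarith)
  have h2 : b * m ≤ d + (b - 1) * ζ := by
    have : (b - 1) * m ≤ (b - 1) * ζ := mul_le_mul_of_nonneg_left hm2 (by linarith)
    linarith
  have h3 : η * (b * m) ≤ η * (d + (b - 1) * ζ) := mul_le_mul_of_nonneg_left h2 hη
  have h4 : (b + 1) * d ≤ (b - 1) * D := by nlinarith
  have h5 : η * ((b + 1) * d) ≤ η * ((b - 1) * D) := mul_le_mul_of_nonneg_left h4 hη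
  nlinarith

end BDAXaux

open BDAXaux

theorem BDAX_thm (hZYG : ZYGStmt) (hTTR : TTRStmt) : BDAXStmt := by
  classical
  intro p r hpr
  have hr2 := hpr.r2
  have hrb := hpr.rb
  have hp0 : (0 : ℝ) ≤ (p : ℝ) := Nat.cast_nonneg _
  have hr0 : (0 : ℝ) ≤ (r : ℝ) := Nat.cast_nonneg _
  have hb0 : (0 : ℝ) < (p : ℝ) + 3 := by positivity
  refine ⟨((p : ℝ) + 2) * r + r * ((p : ℝ) + 3 + r) + 1, by positivity, ?_⟩
  intro δ C hδ
  obtain ⟨a₃, ha₃⟩ := exists_nat_ge (C / δ)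
  refine ⟨15 * r + a₃ + 1, ?_⟩
  intro a ha V _ _ G hG z A hA hAs
  have ha1 : 1 ≤ a := by omega
  have haR : (1 : ℝ) ≤ (a : ℝ) := by exact_mod_cast ha1
  have ha0 : (0 : ℝ) ≤ (a : ℝ) := by linarith
  have ha15 : 15 * (r : ℝ) ≤ a := by
    have : 15 * r ≤ a := by omega
    exact_mod_cast this
  have haC : C ≤ δ * a := by
    have h1 : (a₃ : ℝ) ≤ a := by
      have : a₃ ≤ a := by omega
      exact_mod_cast this
    have h2 : C / δ ≤ a := ha₃.trans h1
    rw [div_le_iff₀ hδ] at h2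
    linarith
  set W : Finset V := nb G univ z with hW
  set D : ℕ := (p + 3) * a + r with hD
  have hDR : (D : ℝ) = ((p : ℝ) + 3) * a + r := by rw [hD]; push_cast; ring
  have hcbW : CB G W (p + 3) := hG.cb.nb (mem_univ z)
  have hWD : W.card ≤ D := hG.deg z
  have hco : ∀ v, Pool.KR.co G v z = nb G W v := by
    intro v
    ext x
    unfold Pool.KR.co
    rw [mem_nb, mem_nb, mem_nb, hW, mem_nb]
    simp only [mem_univ, true_and]
    exact and_comm
  choose! e P U hS he0 he1 hm1 using hAs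
  set Y : Finset V := (W \ A).filter (fun y => ∃ v ∈ A, G.Adj v y ∧ y ∉ U v) with hY
  set Z : Finset V := (W \ A) \ Y with hZ
  have hYs : Y ⊆ W \ A := filter_subset _ _
  set n : ℝ := (A.card : ℝ) with hn
  set η : ℝ := (Y.card : ℝ) with hη
  set ζ : ℝ := (Z.card : ℝ) with hζ
  have hη0 : 0 ≤ η := Nat.cast_nonneg _
  have hζ0 : 0 ≤ ζ := Nat.cast_nonneg _
  have hn0 : 0 ≤ n := Nat.cast_nonneg _
  have hsum : n + η + ζ ≤ D := by
    have h1 : (W \ A).card + A.card = W.card := card_sdiff_add_card_eq_card hA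
    have h2 : Z.card + Y.card = (W \ A).card := card_sdiff_add_card_eq_card hYs
    have h3 : A.card + Y.card + Z.card ≤ D := by omega
    rw [hn, hη, hζ]
    exact_mod_cast h3
  -- split of sums
  have hsplit : ∀ f : V → ℝ, ∑ x ∈ W, f x = ∑ x ∈ A, f x + ∑ x ∈ Y, f x + ∑ x ∈ Z, f x := by
    intro f
    rw [← sum_sdiff hA, ← sum_sdiff hYs]
    ring
  -- degrees of the vertices of Y
  set d : ℝ := 2 / 3 * (((p : ℝ) + 2) * a) with hd
  have hd0 : 0 ≤ d := by positivity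
  have hYd : ∀ y ∈ Y, ((nb G W y).card : ℝ) ≤ d := by
    intro y hy
    rw [hY, mem_filter] at hy
    obtain ⟨hyW, v, hv, hvy, hyU⟩ := hy
    have hyN : y ∈ nb G univ v := (mem_nb G).2 ⟨mem_univ y, hvy⟩
    obtain ⟨i, hi⟩ := (((hS v hv).cov y).1 hyN).resolve_left hyU
    have h3 := BDAgen.codeg G p a D (e v) C v z y (P v) (U v) (hS v hv) i hi (hG.deg y)
    have h4 := hm1 v hv
    have h5 := he1 v hv
    have hb8 : ((p : ℝ) + 2) * (e v + e1 p) ≤ 1 / 72 := by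
      have hE0 : 0 < e1 p := by unfold e1; positivity
      have h8 : ((p : ℝ) + 2) * (e v + e1 p) ≤ ((p : ℝ) + 3) * (2 * e1 p) := by
        have := he0 v hv
        nlinarith
      have h9 : ((p : ℝ) + 3) * (2 * e1 p) = 1 / (8 * ((p : ℝ) + 3) ^ 2) := by
        unfold e1
        field_simp
        norm_num
      have h10 : 1 / (8 * ((p : ℝ) + 3) ^ 2) ≤ 1 / 72 :=
        one_div_le_one_div_of_le (by norm_num) (by nlinarith)
      linarith
    have h11 : ((p : ℝ) + 2) * ((1 - e v - e1 p) * a) =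
        ((p : ℝ) + 2) * a - (((p : ℝ) + 2) * (e v + e1 p)) * a := by ring
    have h12 : (((p : ℝ) + 2) * (e v + e1 p)) * a ≤ 1 / 72 * a :=
      mul_le_mul_of_nonneg_right hb8 ha0
    rw [h11, hDR] at h3
    refine h3.trans ?_
    rw [hd]
    unfold m9 at h4
    linarith
  -- the sum over Y
  have s1 : ∑ y ∈ Y, ((nb G W y).card : ℝ) ≤ η * d := by
    have := sum_le_sum hYd
    rwa [sum_const, nsmul_eq_mul] at this
  set m : ℝ := min d ζ with hm
  have s2 : ∑ y ∈ Z, ((nb G Y y).card : ℝ) ≤ η * m := by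
    rw [swap]
    have : ∀ y ∈ Y, ((nb G Z y).card : ℝ) ≤ m := by
      intro y hy
      refine le_min (le_trans ?_ (hYd y hy)) ?_
      · have : nb G Z y ⊆ nb G W y := by
          intro x hx
          rw [mem_nb] at hx ⊢
          exact ⟨(mem_sdiff.1 (mem_sdiff.1 hx.1).1).1, hx.2⟩
        exact_mod_cast card_le_card this
      · rw [hζ]
        exact_mod_cast card_le_card (nb_subset G _ _)
    have := sum_le_sum this
    rwa [sum_const, nsmul_eq_mul] at this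
  have s3 : ∑ y ∈ Z, ((nb G A y).card : ℝ) ≤ n * C := by
    rw [swap]
    have : ∀ v ∈ A, ((nb G Z v).card : ℝ) ≤ C := by
      intro v hv
      refine le_trans ?_ (hS v hv).cU
      have : nb G Z v ⊆ U v := by
        intro x hx
        rw [mem_nb] at hx
        obtain ⟨hx1, hx2⟩ := hx
        obtain ⟨hx3, hx4⟩ := mem_sdiff.1 hx1
        by_contra hxU
        exact hx4 (mem_filter.2 ⟨hx3, v, hv, hx2, hxU⟩)
      exact_mod_cast card_le_card this
    have := sum_le_sum this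
    rwa [sum_const, nsmul_eq_mul] at this
  have s4 : ((p : ℝ) + 3) * ∑ y ∈ Z, ((nb G Z y).card : ℝ) ≤ ((p : ℝ) + 2) * ζ ^ 2 := by
    rw [← ktwo]
    have h1 := hZYG G (p + 3) Z (hcbW.mono (sdiff_subset.trans sdiff_subset)) 2
    have h2 : (((p + 3).choose 2 : ℕ) : ℝ) * 2 = ((p : ℝ) + 3) * ((p : ℝ) + 2) := by
      have h3 : (p + 3).choose 2 * 2 = (p + 3) * (p + 2) := by
        rw [Nat.choose_two_right]
        exact Nat.div_mul_cancel (by
          have : (p + 3) * (p + 3 - 1) = (p + 3) * (p + 2) := rfl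
          rw [this, mul_comm]
          exact (Nat.even_mul_succ_self (p + 2)).two_dvd)
      have h4 : (((p + 3).choose 2 * 2 : ℕ) : ℝ) = (((p + 3) * (p + 2) : ℕ) : ℝ) := by rw [h3]
      push_cast at h4
      exact h4
    have h5 : ((p : ℝ) + 3) * (2 * (kc G Z 2 : ℝ)) ≤
        ((p : ℝ) + 3) * (2 * (((p + 3).choose 2 : ℕ) * ((Z.card : ℝ) / ((p + 3 : ℕ) : ℝ)) ^ 2)) :=
      mul_le_mul_of_nonneg_left (mul_le_mul_of_nonneg_left h1 (by norm_num)) hb0.le
    refine h5.trans (le_of_eq ?_)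
    have h6 : 2 * ((((p + 3).choose 2 : ℕ) : ℝ) * ((Z.card : ℝ) / ((p + 3 : ℕ) : ℝ)) ^ 2) =
        ((((p + 3).choose 2 : ℕ) : ℝ) * 2) * (ζ / ((p : ℝ) + 3)) ^ 2 := by
      rw [hζ]
      push_cast
      ring
    rw [h6, h2]
    field_simp
  have hdec : 2 * (kc G W 2 : ℝ) = ∑ v ∈ A, ((nb G W v).card : ℝ) +
      ∑ y ∈ Y, ((nb G W y).card : ℝ) + (∑ y ∈ Z, ((nb G A y).card : ℝ) +
      ∑ y ∈ Z, ((nb G Y y).card : ℝ) + ∑ y ∈ Z, ((nb G Z y).card : ℝ)) := by
    rw [ktwo, hsplit]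
    congr 1
    rw [← sum_add_distrib, ← sum_add_distrib]
    refine sum_congr rfl fun y _ => ?_
    rw [nbc, nbc, nbc, nbc, hsplit]
  -- the main term
  have hTT : ((p : ℝ) + 2) * a * ((D : ℝ) - r) ≤ 2 * (TT (p + 3) 2 a r : ℝ) := by
    have h1 := (hTTR.2.2.1 (p + 3) 2 a r (by omega)).1
    have h1' : ((p + 3).choose 2 : ℝ) * (a : ℝ) ^ 2 ≤ (TT (p + 3) 2 a r : ℝ) := by
      exact_mod_cast h1
    have h2 : (((p + 3).choose 2 : ℕ) : ℝ) * 2 = ((p : ℝ) + 3) * ((p : ℝ) + 2) := by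
      have h3 : (p + 3).choose 2 * 2 = (p + 3) * (p + 2) := by
        rw [Nat.choose_two_right]
        exact Nat.div_mul_cancel (by
          have : (p + 3) * (p + 3 - 1) = (p + 3) * (p + 2) := rfl
          rw [this, mul_comm]
          exact (Nat.even_mul_succ_self (p + 2)).two_dvd)
      have h4 : (((p + 3).choose 2 * 2 : ℕ) : ℝ) = (((p + 3) * (p + 2) : ℕ) : ℝ) := by rw [h3]
      push_cast at h4
      exact h4
    calc ((p : ℝ) + 2) * a * ((D : ℝ) - r) = ((((p + 3).choose 2 : ℕ) : ℝ) * 2) * (a : ℝ) ^ 2 := by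
          rw [h2, hDR]; ring
      _ = 2 * (((p + 3).choose 2 : ℝ) * (a : ℝ) ^ 2) := by ring
      _ ≤ _ := mul_le_mul_of_nonneg_left h1' (by norm_num)
  -- the left side
  have hleft : ∑ v ∈ A, (((p : ℝ) + 2) * (a : ℝ) - (kc G (Pool.KR.co G v z) 1 : ℝ)) =
      n * (((p : ℝ) + 2) * (a : ℝ)) - ∑ v ∈ A, ((nb G W v).card : ℝ) := by
    rw [sum_sub_distrib, sum_const, nsmul_eq_mul]
    congr 1
    refine sum_congr rfl fun v _ => ?_
    rw [hco, kone]
  have hdf : 2 * df G p 0 r a W = 2 * (TT (p + 3) 2 a r : ℝ) - 2 * (kc G W 2 : ℝ) := by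
    unfold df
    rw [zero_add]
    ring
  rw [hleft, hdf, hdec]
  -- numbers
  have hc := core ((p : ℝ) + 3) D η ζ d m (by linarith) hη0 hζ0 (by linarith) hd0
    (by rw [hd, hDR]; nlinarith [mul_nonneg hp0 hr0]) (min_le_left _ _) (min_le_right _ _)
  have e1 : ((p : ℝ) + 3) - 1 = (p : ℝ) + 2 := by ring
  rw [e1] at hc
  -- (b-1) a (η + ζ) b = (b-1)(D - r)(η+ζ)
  have g1 : ((p : ℝ) + 3) * (((p : ℝ) + 2) * a * (η + ζ)) =
      ((p : ℝ) + 2) * (D * (η + ζ)) - ((p : ℝ) + 2) * (r * (η + ζ)) := by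
    rw [hDR]; ring
  have g2 : ((p : ℝ) + 2) * (r * (η + ζ)) ≤ ((p : ℝ) + 3) * (r * (((p : ℝ) + 3 + r) * a)) := by
    have k1 : η + ζ ≤ ((p : ℝ) + 3 + r) * a := by
      have : (r : ℝ) ≤ r * a := le_mul_of_one_le_right hr0 haR
      have : η + ζ ≤ D := by linarith
      rw [hDR] at this
      linarith
    have k2 : (r : ℝ) * (η + ζ) ≤ r * (((p : ℝ) + 3 + r) * a) :=
      mul_le_mul_of_nonneg_left k1 hr0
    have k3 : ((p : ℝ) + 2) * (r * (η + ζ)) ≤ ((p : ℝ) + 3) * (r * (η + ζ)) :=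
      mul_le_mul_of_nonneg_right (by linarith) (by positivity)
    exact k3.trans (mul_le_mul_of_nonneg_left k2 hb0.le)
  have g3 : η * d + η * m + ∑ y ∈ Z, ((nb G Z y).card : ℝ) ≤
      ((p : ℝ) + 2) * a * (η + ζ) + r * (((p : ℝ) + 3 + r) * a) := by
    have : ((p : ℝ) + 3) * (η * d + η * m + ∑ y ∈ Z, ((nb G Z y).card : ℝ)) ≤
        ((p : ℝ) + 3) * (((p : ℝ) + 2) * a * (η + ζ) + r * (((p : ℝ) + 3 + r) * a)) := by
      have q1 : ((p : ℝ) + 3) * (η * d + η * m + ∑ y ∈ Z, ((nb G Z y).card : ℝ)) =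
        ((p : ℝ) + 3) * (η * d) + ((p : ℝ) + 3) * (η * m) +
        ((p : ℝ) + 3) * ∑ y ∈ Z, ((nb G Z y).card : ℝ) := by ring
      rw [q1, mul_add ((p : ℝ) + 3), g1]
      linarith
    exact le_of_mul_le_mul_left this hb0
  have g4 : ((p : ℝ) + 2) * a * (η + ζ) ≤ ((p : ℝ) + 2) * a * ((D : ℝ) - n) :=
    mul_le_mul_of_nonneg_left (by linarith) (by positivity)
  have g5 : n * C ≤ δ * n * a := by
    have := mul_le_mul_of_nonneg_left haC hn0
    linarith
  have g6 : ((p : ℝ) + 2) * a * ((D : ℝ) - n) = ((p : ℝ) + 2) * a * ((D : ℝ) - r) +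
      ((p : ℝ) + 2) * r * a - n * (((p : ℝ) + 2) * a) := by ring
  have g7 : (((p : ℝ) + 2) * r + r * ((p : ℝ) + 3 + r) + 1) * (a : ℝ) =
      ((p : ℝ) + 2) * r * a + r * (((p : ℝ) + 3 + r) * a) + a := by ring
  rw [g7]
  linarith

end Pool.GX7
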