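import Pool.Agent.H7.GX.Stmts

/-!
Row GCX of the board `gx10`: pointwise inequalities for the weights (after the rows GC8 of helper66
and GC9 of helper67).
-/

set_option autoImplicit false

open Finset

namespace Pool.GX7

open Pool.Agent.H23.KT Pool.Agent.H46.KW Pool.KQ Pool.GT7 Pool.GU7 Pool.GV7

theorem GCX_ww_hi (p r B : ℕ) (hr : r ≤ p) (h : r ≤ B) :
    ww p r B = ((p : ℝ) + 3) * ((B : ℝ) + 1 - r) / (((p : ℝ) + 3 - r) * ((B : ℝ) + 1)) := by
  unfold ww gg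
  rw [if_neg (by omega)]
  have h1 : (r : ℝ) ≤ p := by exact_mod_cast hr
  have h5 : ((p : ℝ) + 3 - r) ≠ 0 := by
    have : 0 < ((p : ℝ) + 3 - r) := by linarith
    exact this.ne'
  have h6 : ((B : ℝ) + 1) ≠ 0 := by positivity
  push_cast
  field_simp
  ring

theorem GCX_ww_lo (p r B : ℕ) (h : B + 1 ≤ r) : ww p r B = 0 := by
  unfold ww gg
  rw [if_pos h, sub_self]

theorem GCX_thm : GCXStmt := by
  intro p r hP
  obtain ⟨r2, rb⟩ := hP
  have rp : r ≤ p := by omega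
  have h1 : (r : ℝ) ≤ p := by exact_mod_cast rp
  have h2 : (2 : ℝ) ≤ r := by exact_mod_cast r2
  have hrb : 3 * (r : ℝ) ≤ p + 2 := by exact_mod_cast rb
  have hPR : 0 < (p : ℝ) + 3 - r := by linarith
  refine ⟨⟨by omega, by omega, rp⟩, ?_, ?_, ?_, ?_⟩
  · obtain ⟨t, ht⟩ : ∃ t, p + 3 = r + t := ⟨p + 3 - r, by omega⟩
    have e1 : p + 3 - r = t := by omega
    rw [e1]
    have h3 : 2 * r + 1 ≤ t := by omega
    have h4 : (p + 2) * (2 * r + 1) ≤ (p + 2) * t := Nat.mul_le_mul_left _ h3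
    have h5 : 2 * r * (p + 3) ≤ (p + 2) * (2 * r + 1) := by nlinarith
    calc 2 * r * (p + 3) ≤ (p + 2) * t := h5.trans h4
      _ = (p + 2) * ((0 + 1) * t) := by ring
  · intro B hB
    have hB' : (B : ℝ) ≤ p + 2 := by exact_mod_cast hB
    have hB0 : (0 : ℝ) ≤ B := Nat.cast_nonneg B
    rcases Nat.lt_or_ge B r with h | h
    · rw [GCX_ww_lo p r B h]
      have h3 : (B : ℝ) + 1 ≤ r := by exact_mod_cast h
      have h4 : ((p : ℝ) + 3 - r) * B ≤ ((p : ℝ) + 2 - B) * (2 * ((r : ℝ) - 1) - B) :=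
        mul_le_mul (by linarith) (by linarith) hB0 (by linarith)
      linarith
    · rw [GCX_ww_hi p r B rp h]
      have h3 : (r : ℝ) ≤ B := by exact_mod_cast h
      have hq : 0 < (B : ℝ) + 1 := by linarith
      have e1 : ((p : ℝ) + 3 - r) * (((p : ℝ) + 2) * (((p : ℝ) + 3) * ((B : ℝ) + 1 - r) /
          (((p : ℝ) + 3 - r) * ((B : ℝ) + 1))) - B) =
          ((p : ℝ) + 2 - B) * (((p : ℝ) + 3 - r) * B - ((p : ℝ) + 3) * (r - 1)) / ((B : ℝ) + 1) := by
        field_simp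
        ring
      rw [e1, le_div_iff₀ hq]
      rcases Nat.lt_or_ge B (p + 2) with h' | h'
      · have h5 : (B : ℝ) ≤ p + 1 := by
          have : B ≤ p + 1 := by omega
          exact_mod_cast this
        have h6 : ((B : ℝ) - 2 * ((r : ℝ) - 1)) * ((B : ℝ) + 1) ≤
            ((p : ℝ) + 3 - r) * B - ((p : ℝ) + 3) * (r - 1) := by
          have := mul_nonneg (by linarith : (0 : ℝ) ≤ (B : ℝ) - (r - 1))
            (by linarith : (0 : ℝ) ≤ (p : ℝ) + 1 - B)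
          linarith
        calc ((p : ℝ) + 2 - B) * (B - 2 * ((r : ℝ) - 1)) * ((B : ℝ) + 1)
            = ((p : ℝ) + 2 - B) * ((B - 2 * ((r : ℝ) - 1)) * ((B : ℝ) + 1)) := by ring
          _ ≤ _ := mul_le_mul_of_nonneg_left h6 (by linarith)
      · have h5 : (B : ℝ) = p + 2 := by
          have : B = p + 2 := le_antisymm hB h'
          exact_mod_cast this
        have h6 : (p : ℝ) + 2 - B = 0 := by linarith
        rw [h6]
        simp
  · intro B hB
    have hP1 : 0 < (p : ℝ) + 3 := by linarith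
    have hP2 : (1 : ℝ) ≤ ((p : ℝ) + 3) ^ 2 := by nlinarith
    have a2 : 1 / (4 * ((p : ℝ) + 3) ^ 2) ≤ 1 / 4 := by
      rw [div_le_div_iff₀ (by positivity) (by norm_num)]
      linarith
    rcases Nat.lt_or_ge B r with h | h
    · rw [GCX_ww_lo p r B h]
      have h3 : (B : ℝ) + 1 ≤ r := by exact_mod_cast h
      linarith
    · rw [GCX_ww_hi p r B rp h]
      have hq : 0 < (B : ℝ) + 1 := by positivity
      have h3 : (r : ℝ) ≤ B := by exact_mod_cast h
      have h5 : (B : ℝ) ≤ p + 1 := by exact_mod_cast hB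
      have hden : 0 < ((p : ℝ) + 3 - r) * ((B : ℝ) + 1) := mul_pos hPR hq
      have e5 : ((p : ℝ) + 2) * (1 + 2 * (((p : ℝ) + 3) * ((B : ℝ) + 1 - r) /
          (((p : ℝ) + 3 - r) * ((B : ℝ) + 1)))) =
          ((p : ℝ) + 2) * (((p : ℝ) + 3 - r) * ((B : ℝ) + 1) +
            2 * (((p : ℝ) + 3) * ((B : ℝ) + 1 - r))) / (((p : ℝ) + 3 - r) * ((B : ℝ) + 1)) := by
        field_simp
      rw [e5, le_div_iff₀ hden]
      have c1 : ((p : ℝ) + 3 - r) * ((B : ℝ) + 1) ≤ ((p : ℝ) + 3) ^ 2 := by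
        rw [sq]
        exact mul_le_mul (by linarith) (by linarith) hq.le hP1.le
      have c2 : 1 / (4 * ((p : ℝ) + 3) ^ 2) * (((p : ℝ) + 3 - r) * ((B : ℝ) + 1)) ≤ 1 / 4 := by
        rw [one_div_mul_eq_div, div_le_div_iff₀ (by positivity) (by norm_num)]
        linarith
      have c3 : (6 : ℝ) ≤ (r : ℝ) * ((p : ℝ) + 5 - 3 * r) := by
        have := mul_le_mul h2 (by linarith : (3 : ℝ) ≤ (p : ℝ) + 5 - 3 * r) (by norm_num)
          (by linarith)
        linarith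
      have c4 : 0 ≤ 3 * ((B : ℝ) + 1 - r) * ((p : ℝ) + 3 - r) :=
        mul_nonneg (by linarith) hPR.le
      have c5 : (6 : ℝ) ≤ ((p : ℝ) + 2 - B) *
          ((r : ℝ) * ((p : ℝ) + 5 - 3 * r) + 3 * ((B : ℝ) + 1 - r) * ((p : ℝ) + 3 - r)) := by
        have := mul_le_mul (by linarith : (1 : ℝ) ≤ (p : ℝ) + 2 - B)
          (by linarith : (6 : ℝ) ≤ (r : ℝ) * ((p : ℝ) + 5 - 3 * r) +
            3 * ((B : ℝ) + 1 - r) * ((p : ℝ) + 3 - r)) (by norm_num) (by linarith)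
        linarith
      have e6 : ((p : ℝ) + 2) * (((p : ℝ) + 3 - r) * ((B : ℝ) + 1) +
            2 * (((p : ℝ) + 3) * ((B : ℝ) + 1 - r))) =
          3 * (B : ℝ) * (((p : ℝ) + 3 - r) * ((B : ℝ) + 1)) + ((p : ℝ) + 2 - B) *
          ((r : ℝ) * ((p : ℝ) + 5 - 3 * r) + 3 * ((B : ℝ) + 1 - r) * ((p : ℝ) + 3 - r)) := by
        ring
      rw [e6, add_mul]
      linarith
  · have hp0 : (0 : ℝ) ≤ p := Nat.cast_nonneg p
    have h3 : 2 * ((r : ℝ) - 1) * ((p : ℝ) + 2) ≤ 2 / 3 * ((p : ℝ) - 1) * ((p : ℝ) + 2) :=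
      mul_le_mul_of_nonneg_right (by linarith) (by linarith)
    nlinarith

end Pool.GX7
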