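import Pool.Agent.H7.GX.Stmts

/-!
Row NDBX of the board gx (MP_fd41b2_co).
-/

set_option autoImplicit false

open Finset

namespace Pool.GX7

open Pool.Agent.H23.KT Pool.Agent.H46.KW Pool.KQ Pool.GT7 Pool.GU7 Pool.GV7

/-- The numerical part, `A = a ^ b`, `c = p + 2`, `s = 1/(4 b^2)`. -/
theorem ndbx_num (p : ℕ) (ε A N S1 T κ lo hi t m : ℝ)
    (hA : 0 < A) (hε : ε = 1 / (128 * ((p : ℝ) + 3) ^ 3))
    (h1 : (1 - ε) * A ≤ N) (h2 : N ≤ (1 + ε) * A) (h3 : S1 ≤ m * A + ε * A)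
    (hm : m ≤ 2 / 3 * ((p : ℝ) + 2)) (h6 : κ ≤ S1 + ε * A)
    (h7 : 3 * S1 + 1 / (4 * ((p : ℝ) + 3) ^ 2) * lo ≤ ((p : ℝ) + 2) * N + 2 * ((p : ℝ) + 2) * T)
    (h8 : ((p : ℝ) + 2) * hi ≤ S1) (h9 : hi + lo = N) (hT : T ≤ N) (ht0 : 0 ≤ t)
    (ht : t * (((p : ℝ) + 2) * 256 * ((p : ℝ) + 3) ^ 3) ≤ 1) :
    3 * κ - 2 * ((1 - t) * (((p : ℝ) + 2) * T)) ≤
      ((p : ℝ) + 2 - 1 / (32 * ((p : ℝ) + 3) ^ 2)) * A := by
  have hp0 : (0 : ℝ) ≤ p := Nat.cast_nonneg p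
  have hb3 : (27 : ℝ) ≤ ((p : ℝ) + 3) ^ 3 := by
    have : (3 : ℝ) ^ 3 ≤ ((p : ℝ) + 3) ^ 3 := pow_le_pow_left₀ (by norm_num) (by linarith) 3
    linarith
  have hε0 : 0 < ε := by rw [hε]; positivity
  have hε1 : ε * (128 * ((p : ℝ) + 3) ^ 3) = 1 := by rw [hε]; field_simp
  have hε2 : ε ≤ 1 / 24 := by nlinarith
  set s : ℝ := 1 / (4 * ((p : ℝ) + 3) ^ 2) with hs
  have hs0 : 0 < s := by positivity
  have hs1 : ε * ((p : ℝ) + 5) ≤ s / 16 := by
    have e1 : s / 16 = ε * (2 * ((p : ℝ) + 3)) := by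
      rw [hs, hε]
      field_simp
      norm_num
    rw [e1]
    exact mul_le_mul_of_nonneg_left (by linarith) hε0.le
  have hs2 : 1 / (32 * ((p : ℝ) + 3) ^ 2) = s / 8 := by
    rw [hs]
    field_simp
    norm_num
  -- the number of high cliques
  have q1 : ((p : ℝ) + 2) * hi ≤ ((p : ℝ) + 2) * ((2 / 3 + ε) * A) := by
    have q0 : m * A ≤ 2 / 3 * ((p : ℝ) + 2) * A := mul_le_mul_of_nonneg_right hm hA.le
    have q0' : ε * A ≤ ((p : ℝ) + 2) * (ε * A) := by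
      have : 0 < ε * A := by positivity
      nlinarith
    linarith
  have q2 : hi ≤ (2 / 3 + ε) * A := le_of_mul_le_mul_left q1 (by linarith)
  have q3 : A / 4 ≤ lo := by
    have : ε * A ≤ 1 / 24 * A := mul_le_mul_of_nonneg_right hε2 hA.le
    linarith
  have q4 : s * (A / 4) ≤ s * lo := mul_le_mul_of_nonneg_left q3 hs0.le
  have q5 : ((p : ℝ) + 2) * N ≤ ((p : ℝ) + 2) * ((1 + ε) * A) :=
    mul_le_mul_of_nonneg_left h2 (by linarith)
  -- the term with t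
  have q6 : 2 * (t * (((p : ℝ) + 2) * T)) ≤ s / 16 * A := by
    have r1 : T ≤ 2 * A := by
      have : ε * A ≤ 1 / 24 * A := mul_le_mul_of_nonneg_right hε2 hA.le
      linarith
    have r2 : t * (((p : ℝ) + 2) * T) ≤ t * (((p : ℝ) + 2) * (2 * A)) :=
      mul_le_mul_of_nonneg_left (mul_le_mul_of_nonneg_left r1 (by linarith)) ht0
    have r3 : 4 * (t * ((p : ℝ) + 2)) ≤ s / 16 := by
      have r4 : 4 * (t * ((p : ℝ) + 2)) ≤ 2 * ε := by
        have : 4 * (t * ((p : ℝ) + 2)) * (64 * ((p : ℝ) + 3) ^ 3) ≤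
            2 * ε * (64 * ((p : ℝ) + 3) ^ 3) := by linarith
        exact le_of_mul_le_mul_right this (by positivity)
      have r5 : 2 * ε ≤ ε * ((p : ℝ) + 5) := by nlinarith
      linarith
    have r6 : 4 * (t * ((p : ℝ) + 2)) * A ≤ s / 16 * A := mul_le_mul_of_nonneg_right r3 hA.le
    linarith
  have q7 : ε * ((p : ℝ) + 5) * A ≤ s / 16 * A := mul_le_mul_of_nonneg_right hs1 hA.le
  rw [hs2]
  linarith

theorem NDBX_thm (hG : GCXStmt) (hP : PRFStmt) (hC : CCK0Stmt) (hO : GCO0Stmt) : NDBXStmt := by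
  intro p r h
  obtain ⟨h0, -, -, g4, -⟩ := hG p r h
  have hp0 : (0 : ℝ) ≤ p := Nat.cast_nonneg p
  have he : 0 < e1 p := by unfold e1; positivity
  set ε : ℝ := 1 / (128 * ((p : ℝ) + 3) ^ 3) with hε
  have hε0 : 0 < ε := by positivity
  obtain ⟨e₀, he₀, hP1⟩ := hP p ε hε0
  refine ⟨min e₀ (e1 p / 2), lt_min he₀ (by positivity), fun C => ?_⟩
  obtain ⟨a₀, hP2⟩ := hP1 C
  refine ⟨max a₀ 1, fun a ha V _ G e W P U hStr he0 hee hCB z hz hn hnd => ?_⟩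
  have ha0 : a₀ ≤ a := le_trans (le_max_left _ _) ha
  have ha1 : 1 ≤ a := le_trans (le_max_right _ _) ha
  have haR : (0 : ℝ) < a := by exact_mod_cast ha1
  obtain ⟨p1, p2, -, p4, -, p6, -⟩ :=
    hP2 a ha0 G e W P U hStr he0 (hee.trans (min_le_left _ _)) hCB z hz
  obtain ⟨c1, -, -, -⟩ :=
    hC G p 0 r a e C W P U h0 hStr he0 (hee.trans (min_le_right _ _)) hCB z hz
  obtain ⟨o1, o2, -⟩ := hO p 0 r h0
  set X := un P with hX
  have hA : (0 : ℝ) < (a : ℝ) ^ (p + 3) := by positivity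
  have hN : (kc G X (p + 3) : ℝ) = ∑ L ∈ clq G X (p + 3), (1 : ℝ) := by
    rw [sum_const, nsmul_eq_mul, mul_one]
    rfl
  have hT : TZ G p r X z ≤ (kc G X (p + 3) : ℝ) := by
    unfold TZ
    rw [hN]
    exact sum_le_sum fun L hL => (o1 _ (c1 L hL)).2.1
  set lo : ℝ := ∑ L ∈ clq G X (p + 3), (if (nb G L z).card ≤ p + 1 then (1 : ℝ) else 0) with hlo
  set hi : ℝ := ∑ L ∈ clq G X (p + 3), (if (nb G L z).card ≤ p + 1 then (0 : ℝ) else 1) with hhi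
  have h9 : hi + lo = (kc G X (p + 3) : ℝ) := by
    rw [hlo, hhi, hN, ← sum_add_distrib]
    refine sum_congr rfl fun L _ => ?_
    split_ifs <;> norm_num
  have h8 : ((p : ℝ) + 2) * hi ≤ ∑ L ∈ clq G X (p + 3), ((nb G L z).card : ℝ) := by
    rw [hhi, mul_sum]
    refine sum_le_sum fun L hL => ?_
    split_ifs with hB
    · rw [mul_zero]; exact Nat.cast_nonneg _
    · rw [mul_one]
      have : p + 2 ≤ (nb G L z).card := by omega
      exact_mod_cast this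
  have h7 : 3 * (∑ L ∈ clq G X (p + 3), ((nb G L z).card : ℝ)) +
      1 / (4 * ((p : ℝ) + 3) ^ 2) * lo ≤
      ((p : ℝ) + 2) * (kc G X (p + 3) : ℝ) + 2 * ((p : ℝ) + 2) * TZ G p r X z := by
    unfold TZ
    rw [hlo, hN, mul_sum, mul_sum, mul_sum, mul_sum, ← sum_add_distrib, ← sum_add_distrib]
    refine sum_le_sum fun L hL => ?_
    have hB2 := c1 L hL
    split_ifs with hB
    · have := g4 _ hB
      linarith
    · have hB3 : (nb G L z).card = p + 2 := by omega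
      rw [hB3, o2]
      push_cast
      linarith
  have t1 : 0 ≤ et p 0 := by unfold et; positivity
  have t0 : et p 0 * (((p : ℝ) + 2) * 256 * ((p : ℝ) + 3) ^ 3) ≤ 1 := by
    have e5 : et p 0 * (((p : ℝ) + 2) * 256 * ((p : ℝ) + 3) ^ 3) = e1 p / 2 := by
      unfold et
      rw [zero_add, Nat.choose_one_right]
      push_cast
      field_simp
      norm_num
    rw [e5]
    have : e1 p ≤ 1 := by
      unfold e1
      rw [div_le_one (by positivity)]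
      have : (1 : ℝ) ≤ ((p : ℝ) + 3) ^ 3 := one_le_pow₀ (by linarith)
      linarith
    linarith
  have pw1 : (a : ℝ) ^ (p + 3) = (a : ℝ) ^ (p + 2) * a := by rw [← pow_succ]
  have h3 : ∑ L ∈ clq G X (p + 3), ((nb G L z).card : ℝ) ≤
      m9 p * (a : ℝ) ^ (p + 3) + ε * (a : ℝ) ^ (p + 3) := by
    refine p4.trans ?_
    have : ((nb G X z).card : ℝ) * (a : ℝ) ^ (p + 2) ≤ m9 p * a * (a : ℝ) ^ (p + 2) :=
      mul_le_mul_of_nonneg_right hn (by positivity)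
    rw [pw1]
    linarith
  have h6 : (kc G (nb G X z) 1 : ℝ) * (a : ℝ) ^ (p + 2) ≤
      ∑ L ∈ clq G X (p + 3), ((nb G L z).card : ℝ) + ε * (a : ℝ) ^ (p + 3) := by
    have := p6 1 (by omega)
    have e7 : p + 3 - 1 = p + 2 := rfl
    rw [e7] at this
    simpa only [Nat.choose_one_right] using this
  have key := ndbx_num p ε ((a : ℝ) ^ (p + 3)) (kc G X (p + 3)) _ (TZ G p r X z)
    ((kc G (nb G X z) 1 : ℝ) * (a : ℝ) ^ (p + 2)) lo hi (et p 0) (m9 p) hA hε p1 p2 h3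
    (by unfold m9; linarith) h6 h7 h8 h9 hT t1 t0
  have hd : (0 : ℝ) < (a : ℝ) ^ (p + 2) := by positivity
  have hndE : nd G p 0 r a X z * (a : ℝ) ^ (p + 2) =
      (kc G (nb G X z) 1 : ℝ) * (a : ℝ) ^ (p + 2) -
        (1 - et p 0) * (((p : ℝ) + 2) * TZ G p r X z) := by
    unfold nd at hnd ⊢
    rw [max_eq_right (le_of_lt ((lt_max_iff.1 hnd).resolve_left (lt_irrefl 0)))]
    rw [zero_add, Nat.choose_one_right, pow_one, pw1]
    push_cast
    field_simp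
  refine le_of_mul_le_mul_right ?_ hd
  have e8 : (2 * nd G p 0 r a X z + (kc G (nb G X z) 1 : ℝ)) * (a : ℝ) ^ (p + 2) =
      3 * ((kc G (nb G X z) 1 : ℝ) * (a : ℝ) ^ (p + 2)) -
        2 * ((1 - et p 0) * (((p : ℝ) + 2) * TZ G p r X z)) := by
    rw [add_mul, mul_assoc, hndE]
    ring
  rw [e8]
  refine key.trans (le_of_eq ?_)
  rw [pw1]
  ring

end Pool.GX7
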